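import Pool.Agent.H76.SW.T

namespace Pool.Agent.H21.SW

open Pool.Agent.H76.SW

section D4

variable {P : Type} {k : ℕ} (F : FS P (k + 1))

open Classical in
/-- the bags of the sliding decomposition -/
noncomputable def bag : F.N ⊕ (F.N × Fin (k + 1)) → Finset (F.N × Fin (k + 1))
  | .inl x => (@Finset.univ (F.N × Fin (k + 1)) (@instFintypeProd _ _ F.fin _)).filter
      (fun v => v.1 = x)
  | .inr (x, t) => (@Finset.univ (F.N × Fin (k + 1)) (@instFintypeProd _ _ F.fin _)).filter
      (fun v => ∃ y, F.par x = some y ∧ ((v.1 = x ∧ v.2 ≤ t ∧ ∃ l', F.lk x v.2 l') ∨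
        (v.1 = y ∧ ∃ l, t ≤ l ∧ F.lk x l v.2)))

theorem mem_bag_inl {x : F.N} {v : F.N × Fin (k + 1)} : v ∈ bag F (.inl x) ↔ v.1 = x := by
  simp [bag]

theorem mem_bag_inr {x : F.N} {t : Fin (k + 1)} {v : F.N × Fin (k + 1)} :
    v ∈ bag F (.inr (x, t)) ↔
      ∃ y, F.par x = some y ∧ ((v.1 = x ∧ v.2 ≤ t ∧ ∃ l', F.lk x v.2 l') ∨
        (v.1 = y ∧ ∃ l, t ≤ l ∧ F.lk x l v.2)) := by
  simp [bag]

/-- the parents -/
def par' : F.N ⊕ (F.N × Fin (k + 1)) → Option (F.N ⊕ (F.N × Fin (k + 1)))
  | .inl x => (F.par x).map fun _ => .inr (x, Fin.last k)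
  | .inr (x, t) => (F.par x).map fun y => if t.val = 0 then .inl y else
      .inr (x, ⟨t.val - 1, by omega⟩)

/-- the ranks -/
def rk' : F.N ⊕ (F.N × Fin (k + 1)) → ℕ
  | .inl x => (F.rk x + 1) * (k + 2)
  | .inr (x, t) => F.rk x * (k + 2) + t.val + 1

theorem rk'_lt (x y : F.N ⊕ (F.N × Fin (k + 1))) (h : par' F x = some y) : rk' F y < rk' F x := by
  rcases x with x | ⟨x, t⟩
  · simp only [par', Option.map_eq_some_iff] at h
    obtain ⟨z, hz, rfl⟩ := h
    simp only [rk', Fin.val_last]
    nlinarith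
  · simp only [par', Option.map_eq_some_iff] at h
    obtain ⟨z, hz, h2⟩ := h
    have h3 := F.hrk x z hz
    split_ifs at h2 with h4
    · subst h2
      simp only [rk']
      have h5 : (F.rk z + 1) * (k + 2) ≤ F.rk x * (k + 2) := Nat.mul_le_mul_right _ h3
      omega
    · subst h2
      simp only [rk']
      omega

/-- the step from a bag of a child -/
theorem child_step {x x' y' : F.N} {l t l1 : Fin (k + 1)} (hp : F.par x' = some y') (hx : x = y')
    (ht : t ≤ l1) (hl : F.lk x' l1 l) :
    ∃ y, par' F (.inr (x', t)) = some y ∧ (x, l) ∈ bag F y := by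
  subst hx
  by_cases h0 : t.val = 0
  · refine ⟨.inl x, ?_, ?_⟩
    · simp [par', hp, h0]
    · rw [mem_bag_inl]
  · refine ⟨.inr (x', ⟨t.val - 1, by omega⟩), ?_, ?_⟩
    · simp [par', hp, h0]
    · rw [mem_bag_inr]
      refine ⟨x, hp, Or.inr ⟨rfl, l1, ?_, hl⟩⟩
      rw [Fin.le_def] at ht ⊢
      simp only
      omega

theorem conn' (v : F.N × Fin (k + 1)) : ∃ t, v ∈ bag F t ∧
    ∀ x, v ∈ bag F x → x = t ∨ ∃ y, par' F x = some y ∧ v ∈ bag F y := by
  obtain ⟨x, l⟩ := v
  by_cases hA : ∃ y, F.par x = some y ∧ ∃ l', F.lk x l l'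
  · obtain ⟨y, hy, l', hl'⟩ := hA
    refine ⟨.inr (x, l), ?_, ?_⟩
    · rw [mem_bag_inr]
      exact ⟨y, hy, Or.inl ⟨rfl, le_refl _, l', hl'⟩⟩
    · rintro (z | ⟨x', t⟩) hz
      · rw [mem_bag_inl] at hz
        simp only at hz
        subst hz
        right
        refine ⟨.inr (x, Fin.last k), by simp [par', hy], ?_⟩
        rw [mem_bag_inr]
        exact ⟨y, hy, Or.inl ⟨rfl, Fin.le_last _, l', hl'⟩⟩
      · rw [mem_bag_inr] at hz
        obtain ⟨y', hy', ⟨h1, h2, l2, h3⟩ | ⟨h1, l1, h2, h3⟩⟩ := hz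
        · simp only at h1 h2 h3
          subst h1
          by_cases hlt : t = l
          · left
            rw [hlt]
          · right
            have h4 : l.val < t.val := by
              rw [Fin.le_def] at h2
              rcases Nat.lt_or_ge l.val t.val with h | h
              · exact h
              · exact absurd (Fin.ext (le_antisymm h h2)) hlt
            refine ⟨.inr (x, ⟨t.val - 1, by omega⟩), ?_, ?_⟩
            · have h5 : t.val ≠ 0 := by omega
              simp [par', hy, h5]
            · rw [mem_bag_inr]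
              refine ⟨y, hy, Or.inl ⟨rfl, ?_, l', hl'⟩⟩
              rw [Fin.le_def]
              simp only
              omega
        · right
          exact child_step F hy' h1 h2 h3
  · refine ⟨.inl x, by rw [mem_bag_inl], ?_⟩
    rintro (z | ⟨x', t⟩) hz
    · rw [mem_bag_inl] at hz
      left
      simp only at hz
      rw [hz]
    · right
      rw [mem_bag_inr] at hz
      obtain ⟨y', hy', ⟨h1, h2, l2, h3⟩ | ⟨h1, l1, h2, h3⟩⟩ := hz
      · simp only at h1 h2 h3
        subst h1
        exact absurd ⟨y', hy', l2, h3⟩ hA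
      · exact child_step F hy' h1 h2 h3

theorem card' (x : F.N ⊕ (F.N × Fin (k + 1))) : (bag F x).card ≤ k + 1 := by
  classical
  rcases x with x | ⟨x, t⟩
  · have h1 : bag F (.inl x) ⊆ Finset.univ.image (fun l : Fin (k + 1) => (x, l)) := by
      intro v hv
      rw [mem_bag_inl] at hv
      rw [Finset.mem_image]
      exact ⟨v.2, Finset.mem_univ _, by rw [← hv]⟩
    calc (bag F (.inl x)).card ≤ (Finset.univ.image (fun l : Fin (k + 1) => (x, l))).card :=
          Finset.card_le_card h1
      _ ≤ (Finset.univ : Finset (Fin (k + 1))).card := Finset.card_image_le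
      _ = k + 1 := by simp
  · rcases hx : F.par x with _ | y
    · have h1 : bag F (.inr (x, t)) = ∅ := by
        rw [Finset.eq_empty_iff_forall_notMem]
        intro v hv
        rw [mem_bag_inr] at hv
        obtain ⟨y, hy, -⟩ := hv
        rw [hx] at hy
        cases hy
      rw [h1]
      simp
    · obtain ⟨Dom, hDom⟩ : ∃ Dom : Finset (Fin (k + 1)), ∀ l, l ∈ Dom ↔ ∃ l', F.lk x l l' :=
        ⟨Finset.univ.filter fun l => ∃ l', F.lk x l l', fun l => by simp⟩
      let g : Fin (k + 1) → Fin (k + 1) := fun l => if h : ∃ l', F.lk x l l' then h.choose else l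
      have hg : ∀ l l', F.lk x l l' → g l = l' := by
        intro l l' h
        have h2 : ∃ l', F.lk x l l' := ⟨l', h⟩
        have h3 : F.lk x l (g l) := by
          simp only [g, dif_pos h2]
          exact h2.choose_spec
        exact (F.inj x l (g l) l l' h3 h).1 rfl
      have h1 : bag F (.inr (x, t)) ⊆
          (Dom.filter (fun l => l ≤ t)).image (fun l => (x, l)) ∪
            (Dom.filter (fun l => t ≤ l)).image (fun l => (y, g l)) := by
        intro v hv
        rw [mem_bag_inr] at hv
        obtain ⟨y', hy', hv⟩ := hv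
        rw [hx, Option.some_inj] at hy'
        subst hy'
        rw [Finset.mem_union]
        rcases hv with ⟨h2, h3, h4⟩ | ⟨h2, l, h3, h4⟩
        · left
          rw [Finset.mem_image]
          refine ⟨v.2, Finset.mem_filter.2 ⟨(hDom _).2 h4, h3⟩, ?_⟩
          rw [← h2]
        · right
          rw [Finset.mem_image]
          refine ⟨l, Finset.mem_filter.2 ⟨(hDom _).2 ⟨_, h4⟩, h3⟩, ?_⟩
          rw [hg l _ h4, ← h2]
      have h2 : Dom.card ≤ k := by
        obtain ⟨l, hl⟩ := F.nf x
        have h3 : Dom ⊆ Finset.univ.erase l := by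
          intro m hm
          rw [Finset.mem_erase]
          refine ⟨?_, Finset.mem_univ _⟩
          rintro rfl
          obtain ⟨l', hl'⟩ := (hDom _).1 hm
          exact hl l' hl'
        have h4 := Finset.card_le_card h3
        rw [Finset.card_erase_of_mem (Finset.mem_univ _), Finset.card_univ, Fintype.card_fin] at h4
        omega
      have h3 : (Dom.filter (fun l => l ≤ t)).card + (Dom.filter (fun l => t ≤ l)).card ≤
          Dom.card + 1 := by
        rw [← Finset.card_union_add_card_inter]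
        refine Nat.add_le_add (Finset.card_le_card ?_) ?_
        · intro l hl
          rw [Finset.mem_union, Finset.mem_filter, Finset.mem_filter] at hl
          rcases hl with hl | hl
          · exact hl.1
          · exact hl.1
        · have h4 : Dom.filter (fun l => l ≤ t) ∩ Dom.filter (fun l => t ≤ l) ⊆ {t} := by
            intro l hl
            rw [Finset.mem_inter, Finset.mem_filter, Finset.mem_filter] at hl
            rw [Finset.mem_singleton]
            exact le_antisymm hl.1.2 hl.2.2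
          exact (Finset.card_le_card h4).trans (by simp)
      calc (bag F (.inr (x, t))).card ≤ _ := Finset.card_le_card h1
        _ ≤ _ := Finset.card_union_le _ _
        _ ≤ (Dom.filter (fun l => l ≤ t)).card + (Dom.filter (fun l => t ≤ l)).card :=
            Nat.add_le_add Finset.card_image_le Finset.card_image_le
        _ ≤ k + 1 := by omega

theorem edge' (u v : F.N × Fin (k + 1)) (h : F.graph.Adj u v) :
    ∃ x, u ∈ bag F x ∧ v ∈ bag F x := by
  obtain ⟨-, h⟩ := h
  rcases h with h | ⟨h2, h3⟩ | ⟨h2, h3⟩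
  · refine ⟨.inl u.1, ?_, ?_⟩
    · rw [mem_bag_inl]
    · rw [mem_bag_inl, h]
  · refine ⟨.inr (u.1, u.2), ?_, ?_⟩
    · rw [mem_bag_inr]
      exact ⟨v.1, h2, Or.inl ⟨rfl, le_refl _, _, h3⟩⟩
    · rw [mem_bag_inr]
      exact ⟨v.1, h2, Or.inr ⟨rfl, u.2, le_refl _, h3⟩⟩
  · refine ⟨.inr (v.1, v.2), ?_, ?_⟩
    · rw [mem_bag_inr]
      exact ⟨u.1, h2, Or.inr ⟨rfl, v.2, le_refl _, h3⟩⟩
    · rw [mem_bag_inr]
      exact ⟨u.1, h2, Or.inl ⟨rfl, le_refl _, _, h3⟩⟩

end D4

theorem pf_D4 (h1 : U_d3_unroot) : U_d4_width := by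
  intro P k F
  refine h1 F.graph k ⟨?_⟩
  exact
    { N := F.N ⊕ (F.N × Fin (k + 1))
      fin := @instFintypeSum _ _ F.fin (@instFintypeProd _ _ F.fin _)
      par := par' F
      rk := rk' F
      hrk := rk'_lt F
      B := bag F
      cov := fun v => ⟨.inl v.1, (mem_bag_inl F).2 rfl⟩
      edge := edge' F
      conn := conn' F
      card := card' F }

end Pool.Agent.H21.SW
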