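import Pool.Agent.H76.SW.T

namespace Pool.Agent.H21.SW

open Pool.Agent.H76.SW

/-- a map of positions which respects silent and labelled steps -/
theorem mk_map {A P1 P2 : Type} (g1 : P1 → Option (A × Bool) → P1 → Prop)
    (g2 : P2 → Option (A × Bool) → P2 → Prop) (f : P1 → P2)
    (h1 : ∀ a b, g1 a none b → cl g2 (f a) = cl g2 (f b))
    (h2 : ∀ a c b, g1 a (some (c, true)) b → canon g2 (cl g2 (f a)) c (cl g2 (f b))) :
    ∃ φ : Cv g1 → Cv g2, (∀ a, φ (cl g1 a) = cl g2 (f a)) ∧
      ∀ p a q, canon g1 p a q → canon g2 (φ p) a (φ q) := by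
  refine ⟨Quot.lift (fun a => cl g2 (f a)) h1, fun a => rfl, ?_⟩
  rintro p c q ⟨a, b, rfl, rfl, h⟩
  exact h2 a c b h

theorem pw_none {A : Type} {w : List (A × Bool)} {s t : ℕ} (h : pw w s none t) : False := by
  obtain ⟨a, ⟨h, -⟩ | ⟨h, -⟩⟩ := h <;> cases h

theorem pw_left {A : Type} {u : List (A × Bool)} (v : List (A × Bool)) {s t : ℕ}
    {l : Option (A × Bool)} (h : pw u s l t) : pw (u ++ v) s l t := by
  obtain ⟨a, ⟨h1, h2, h3⟩ | ⟨h1, h2, h3⟩⟩ := h
  · refine ⟨a, Or.inl ⟨h1, h2, ?_⟩⟩
    rw [List.getElem?_append_left (List.getElem?_eq_some_iff.1 h3).1]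
    exact h3
  · refine ⟨a, Or.inr ⟨h1, h2, ?_⟩⟩
    rw [List.getElem?_append_left (List.getElem?_eq_some_iff.1 h3).1]
    exact h3

theorem pw_right {A : Type} (u : List (A × Bool)) {v : List (A × Bool)} {s t : ℕ}
    {l : Option (A × Bool)} (h : pw v s l t) :
    pw (u ++ v) (s + u.length) l (t + u.length) := by
  obtain ⟨a, ⟨h1, h2, h3⟩ | ⟨h1, h2, h3⟩⟩ := h
  · refine ⟨a, Or.inl ⟨h1, by omega, ?_⟩⟩
    rw [List.getElem?_append_right (by omega), Nat.add_sub_cancel]
    exact h3
  · refine ⟨a, Or.inr ⟨h1, by omega, ?_⟩⟩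
    rw [List.getElem?_append_right (by omega), Nat.add_sub_cancel]
    exact h3

theorem pw_cases {A : Type} {u v : List (A × Bool)} {s t : ℕ} {l : Option (A × Bool)}
    (h : pw (u ++ v) s l t) :
    (s ≤ u.length ∧ t ≤ u.length ∧ pw u s l t) ∨
      (u.length ≤ s ∧ u.length ≤ t ∧ pw v (s - u.length) l (t - u.length)) := by
  obtain ⟨a, ⟨h1, h2, h3⟩ | ⟨h1, h2, h3⟩⟩ := h
  · rcases Nat.lt_or_ge s u.length with h4 | h4
    · left
      rw [List.getElem?_append_left h4] at h3
      exact ⟨by omega, by omega, a, Or.inl ⟨h1, h2, h3⟩⟩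
    · right
      rw [List.getElem?_append_right h4] at h3
      exact ⟨by omega, by omega, a, Or.inl ⟨h1, by omega, h3⟩⟩
  · rcases Nat.lt_or_ge t u.length with h4 | h4
    · left
      rw [List.getElem?_append_left h4] at h3
      exact ⟨by omega, by omega, a, Or.inr ⟨h1, h2, h3⟩⟩
    · right
      rw [List.getElem?_append_right h4] at h3
      exact ⟨by omega, by omega, a, Or.inr ⟨h1, by omega, h3⟩⟩

section

variable {A I : Type} [DecidableEq I] {n : ℕ} (x y : I → Fin n) (w : I → List (A × Bool)) (e0 : I)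
  (u v : List (A × Bool))

/-- the system with the long path -/
abbrev g1 : (Fin n ⊕ (I × ℕ)) → Option (A × Bool) → (Fin n ⊕ (I × ℕ)) → Prop :=
  ws x y (Function.update w e0 (u ++ v)) (fun _ => True)

/-- the second part without the start link -/
abbrev g0 : (Fin n ⊕ (I × ℕ)) → Option (A × Bool) → (Fin n ⊕ (I × ℕ)) → Prop :=
  ws x y (Function.update w e0 v) (fun e => e ≠ e0)

/-- the split system -/
abbrev g2 : (Fin n ⊕ (I × ℕ)) ⊕ ℕ → Option (A × Bool) → (Fin n ⊕ (I × ℕ)) ⊕ ℕ → Prop :=
  glue (g0 x y w e0 v) (pw u)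
    (fun b => if b then Sum.inr (e0, 0) else Sum.inl (x e0)) (pe u)

/-- positions of the long system in the split system -/
def f1 : (Fin n ⊕ (I × ℕ)) → (Fin n ⊕ (I × ℕ)) ⊕ ℕ
  | .inl i => .inl (.inl i)
  | .inr (e, s) => if e = e0 then (if s ≤ u.length then .inr s else
      .inl (.inr (e0, s - u.length))) else .inl (.inr (e, s))

/-- positions of the split system in the long system -/
def f2 : (Fin n ⊕ (I × ℕ)) ⊕ ℕ → (Fin n ⊕ (I × ℕ))
  | .inl (.inl i) => .inl i
  | .inl (.inr (e, s)) => if e = e0 then .inr (e0, s + u.length) else .inr (e, s)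
  | .inr s => .inr (e0, s)

theorem K1 : cl (g2 x y w e0 u v) (.inr u.length) = cl (g2 x y w e0 u v) (.inl (.inr (e0, 0))) :=
  Quot.sound ⟨rfl, true, rfl, rfl⟩

theorem K2 : cl (g2 x y w e0 u v) (.inr 0) = cl (g2 x y w e0 u v) (.inl (.inl (x e0))) :=
  Quot.sound ⟨rfl, false, rfl, rfl⟩

theorem f1_low {s : ℕ} (h : s ≤ u.length) : f1 (n := n) e0 u (.inr (e0, s)) = .inr s := by
  simp [f1, h]

theorem f1_ne {e : I} (h : e ≠ e0) (s : ℕ) :
    f1 (n := n) e0 u (.inr (e, s)) = .inl (.inr (e, s)) := by
  simp [f1, h]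

theorem f1_high {s : ℕ} (h : u.length ≤ s) :
    cl (g2 x y w e0 u v) (f1 e0 u (.inr (e0, s))) =
      cl (g2 x y w e0 u v) (.inl (.inr (e0, s - u.length))) := by
  rcases h.eq_or_lt with h1 | h1
  · rw [f1_low e0 u h1.symm.le, ← h1, Nat.sub_self]
    exact K1 x y w e0 u v
  · have h2 : ¬ s ≤ u.length := by omega
    simp [f1, h2]

end

theorem pf_U5 : U_u5_split := by
  intro A I _ n x y w e0 u v
  refine ⟨?_, ?_⟩
  · suffices H : (∀ a b, g1 x y w e0 u v a none b →
        cl (g2 x y w e0 u v) (f1 e0 u a) = cl (g2 x y w e0 u v) (f1 e0 u b)) ∧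
        (∀ a c b, g1 x y w e0 u v a (some (c, true)) b →
          canon (g2 x y w e0 u v) (cl (g2 x y w e0 u v) (f1 e0 u a)) c
            (cl (g2 x y w e0 u v) (f1 e0 u b))) by
      obtain ⟨φ, hφ, hφ'⟩ := mk_map (g1 x y w e0 u v) (g2 x y w e0 u v) (f1 e0 u) H.1 H.2
      exact ⟨φ, fun i => hφ _, hφ'⟩
    refine ⟨?_, ?_⟩
    · -- silent steps
      have key : ∀ (e : I) (b : Bool), cl (g2 x y w e0 u v) (f1 e0 u (.inl (if b then y e else x e))) =
          cl (g2 x y w e0 u v) (f1 e0 u (.inr (e, pe (Function.update w e0 (u ++ v) e) b))) := by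
        intro e b
        by_cases he : e = e0
        · subst he
          rw [Function.update_self]
          cases b with
          | false =>
            have e1 : pe (u ++ v) false = 0 := rfl
            rw [e1, f1_low e u (Nat.zero_le _), K2]
            rfl
          | true =>
            have e1 : pe (u ++ v) true = u.length + v.length := by simp [pe]
            rw [e1, f1_high x y w e u v (by omega), Nat.add_sub_cancel_left]
            refine Quot.sound ?_
            refine Or.inr ⟨rfl, e, true, Or.inl rfl, Or.inl ⟨rfl, ?_⟩⟩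
            rw [Function.update_self]
            rfl
        · rw [Function.update_of_ne he, f1_ne e0 u he]
          refine Quot.sound ?_
          refine Or.inr ⟨rfl, e, b, Or.inr he, Or.inl ⟨rfl, ?_⟩⟩
          rw [Function.update_of_ne he]
      rintro a b (⟨e, s, t, rfl, rfl, h⟩ | ⟨-, e, b', -, ⟨rfl, rfl⟩ | ⟨rfl, rfl⟩⟩)
      · exact (pw_none h).elim
      · exact key e b'
      · exact (key e b').symm
    · -- labelled steps
      rintro a c b (⟨e, s, t, rfl, rfl, h⟩ | ⟨h, -⟩)
      · by_cases he : e = e0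
        · subst he
          rw [Function.update_self] at h
          rcases pw_cases h with ⟨h1, h2, h3⟩ | ⟨h1, h2, h3⟩
          · rw [f1_low e u h1, f1_low e u h2]
            exact ⟨_, _, rfl, rfl, h3⟩
          · rw [f1_high x y w e u v h1, f1_high x y w e u v h2]
            refine ⟨_, _, rfl, rfl, ?_⟩
            refine Or.inl ⟨e, _, _, rfl, rfl, ?_⟩
            rw [Function.update_self]
            exact h3
        · rw [Function.update_of_ne he] at h
          rw [f1_ne e0 u he, f1_ne e0 u he]
          refine ⟨_, _, rfl, rfl, ?_⟩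
          refine Or.inl ⟨e, _, _, rfl, rfl, ?_⟩
          rw [Function.update_of_ne he]
          exact h
      · cases h
  · -- steps of the split system are steps of the long system
    have hpw : ∀ (e : I) (s t : ℕ) (l : Option (A × Bool)),
        pw (Function.update w e0 v e) s l t →
        g1 x y w e0 u v (f2 e0 u (.inl (.inr (e, s)))) l (f2 e0 u (.inl (.inr (e, t)))) := by
      intro e s t l h
      by_cases he : e = e0
      · subst he
        rw [Function.update_self] at h
        have e1 : ∀ s, f2 (n := n) e u (.inl (.inr (e, s))) = .inr (e, s + u.length) := by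
          intro s
          simp [f2]
        rw [e1, e1]
        refine Or.inl ⟨e, _, _, rfl, rfl, ?_⟩
        rw [Function.update_self]
        exact pw_right u h
      · rw [Function.update_of_ne he] at h
        have e1 : ∀ s, f2 (n := n) e0 u (.inl (.inr (e, s))) = .inr (e, s) := by
          intro s
          simp [f2, he]
        rw [e1, e1]
        refine Or.inl ⟨e, _, _, rfl, rfl, ?_⟩
        rw [Function.update_of_ne he]
        exact h
    have hpu : ∀ (s t : ℕ) (l : Option (A × Bool)), pw u s l t →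
        g1 x y w e0 u v (f2 e0 u (.inr s)) l (f2 e0 u (.inr t)) := by
      intro s t l h
      refine Or.inl ⟨e0, _, _, rfl, rfl, ?_⟩
      rw [Function.update_self]
      exact pw_left v h
    suffices H : (∀ a b, g2 x y w e0 u v a none b →
        cl (g1 x y w e0 u v) (f2 e0 u a) = cl (g1 x y w e0 u v) (f2 e0 u b)) ∧
        (∀ a c b, g2 x y w e0 u v a (some (c, true)) b →
          canon (g1 x y w e0 u v) (cl (g1 x y w e0 u v) (f2 e0 u a)) c
            (cl (g1 x y w e0 u v) (f2 e0 u b))) by
      obtain ⟨φ, hφ, hφ'⟩ := mk_map (g2 x y w e0 u v) (g1 x y w e0 u v) (f2 e0 u) H.1 H.2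
      exact ⟨φ, fun i => hφ _, hφ'⟩
    refine ⟨?_, ?_⟩
    · have key : ∀ (e : I) (b : Bool), (b = true ∨ e ≠ e0) →
          cl (g1 x y w e0 u v) (f2 e0 u (.inl (.inl (if b then y e else x e)))) =
          cl (g1 x y w e0 u v)
            (f2 e0 u (.inl (.inr (e, pe (Function.update w e0 v e) b)))) := by
        intro e b hb
        by_cases he : e = e0
        · subst he
          have hb' : b = true := hb.resolve_right (fun h => h rfl)
          subst hb'
          rw [Function.update_self]
          have e1 : f2 (n := n) e u (.inl (.inr (e, pe v true))) =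
              .inr (e, v.length + u.length) := by simp [f2, pe]
          rw [e1]
          refine Quot.sound ?_
          refine Or.inr ⟨rfl, e, true, Or.inl rfl, Or.inl ⟨rfl, ?_⟩⟩
          rw [Function.update_self]
          simp [pe, Nat.add_comm]
        · rw [Function.update_of_ne he]
          have e1 : ∀ s, f2 (n := n) e0 u (.inl (.inr (e, s))) = .inr (e, s) := by
            intro s
            simp [f2, he]
          rw [e1]
          refine Quot.sound ?_
          refine Or.inr ⟨rfl, e, b, Or.inr trivial, Or.inl ⟨rfl, ?_⟩⟩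
          rw [Function.update_of_ne he]
      have key2 : ∀ b : Bool,
          cl (g1 x y w e0 u v) (f2 e0 u (.inl (if b then Sum.inr (e0, 0) else Sum.inl (x e0)))) =
          cl (g1 x y w e0 u v) (f2 e0 u (.inr (pe u b))) := by
        intro b
        cases b with
        | true =>
          have e1 : f2 (n := n) e0 u (.inl (if true then Sum.inr (e0, 0) else Sum.inl (x e0))) =
              f2 e0 u (.inr (pe u true)) := by
            simp [f2, pe]
          exact congrArg _ e1
        | false =>
          refine Quot.sound ?_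
          refine Or.inr ⟨rfl, e0, false, Or.inr trivial, Or.inl ⟨rfl, ?_⟩⟩
          rfl
      rintro (a | a) (b | b) h
      · rcases h with ⟨e, s, t, rfl, rfl, h⟩ | ⟨-, e, b', hb', ⟨rfl, rfl⟩ | ⟨rfl, rfl⟩⟩
        · exact (pw_none h).elim
        · exact key e b' hb'
        · exact (key e b' hb').symm
      · obtain ⟨-, b', rfl, rfl⟩ := h
        exact key2 b'
      · obtain ⟨-, b', rfl, rfl⟩ := h
        exact (key2 b').symm
      · exact (pw_none h).elim
    · rintro (a | a) c (b | b) h
      · rcases h with ⟨e, s, t, rfl, rfl, h⟩ | ⟨h, -⟩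
        · exact ⟨_, _, rfl, rfl, hpw e s t _ h⟩
        · cases h
      · cases h.1
      · cases h.1
      · exact ⟨_, _, rfl, rfl, hpu a b _ h⟩

end Pool.Agent.H21.SW
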